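import Mathlib
import Pool.Agent.H355.OE.Main

/-!
# Equations in one variable are undecidable over a one-relator group

Let `b = t a t⁻¹`.  There is no algorithm which decides whether an equation `w(x) = 1` in one
variable has a solution in the one-relator group `⟨a, t, c | b a b⁻¹ a⁻²⟩`, the free product of the
Baumslag–Gersten group `⟨a, t | b a b⁻¹ a⁻²⟩` and an infinite cyclic group.  Every recursively
enumerable set of natural numbers reduces to this problem.
-/

set_option autoImplicit false

namespace Pool.Agent.Results.MP_1ebeae_al.OneVariableUndecidable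

/-- the one-relator group `⟨x_0, …, x_{n-1} | r⟩` -/
abbrev Grp {n : ℕ} (r : FreeGroup (Fin n)) : Type := PresentedGroup ({r} : Set (FreeGroup (Fin n)))

/-- words in the letters `x_0, …, x_{n-1}` (the letters `Sum.inl i`), the variable (the letter
`Sum.inr ()`) and their inverses (marked by `false`) -/
abbrev Word (n : ℕ) : Type := List ((Fin n ⊕ Unit) × Bool)

/-- the value of the word in `⟨x_0, …, x_{n-1} | r⟩` when the variable has the value `g` -/
def value {n : ℕ} (r : FreeGroup (Fin n)) (g : Grp r) (w : Word n) : Grp r :=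
  FreeGroup.lift (Sum.elim (fun i => (PresentedGroup.of i : Grp r)) (fun _ : Unit => g))
    (FreeGroup.mk w)

/-- the equation `w = 1` has a solution in `⟨x_0, …, x_{n-1} | r⟩` -/
def Satisfiable {n : ℕ} (r : FreeGroup (Fin n)) (w : Word n) : Prop := ∃ g : Grp r, value r g w = 1

/-- the relator `b a b⁻¹ a⁻²`, where `b = t a t⁻¹`, in the free group on the three generators
`a = x_0`, `t = x_1`, `c = x_2`; it does not involve `c` -/
def rel : FreeGroup (Fin 3) :=
  (FreeGroup.of 1 * FreeGroup.of 0 * (FreeGroup.of 1)⁻¹) * FreeGroup.of 0 *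
    (FreeGroup.of 1 * FreeGroup.of 0 * (FreeGroup.of 1)⁻¹)⁻¹ * (FreeGroup.of 0 * FreeGroup.of 0)⁻¹

/-- renaming of the variable -/
def ren {n : ℕ} (p : (Fin n ⊕ Fin 1) × Bool) : (Fin n ⊕ Unit) × Bool :=
  (Sum.map id (fun _ => ()) p.1, p.2)

theorem value_ren {n : ℕ} (r : FreeGroup (Fin n)) (g : Fin 1 → Grp r)
    (w : Pool.Agent.R387.OV.Wd n 1) :
    value r (g 0) (w.map ren) = Pool.Agent.R387.OV.value {r} g w := by
  rw [value, Pool.Agent.R387.OV.value, FreeGroup.lift_mk, FreeGroup.lift_mk, List.map_map]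
  congr 1
  apply List.map_congr_left
  rintro ⟨i | i, b⟩ _
  · rfl
  · have hi : i = 0 := Subsingleton.elim _ _
    subst hi
    rfl

theorem primrec_ren {n : ℕ} :
    Primrec (fun w : Pool.Agent.R387.OV.Wd n 1 => w.map (ren (n := n))) :=
  Primrec.list_map Primrec.id ((Primrec.dom_finite ren).comp Primrec.snd)

theorem rel_eq : rel = FreeGroup.map Fin.castSucc Pool.Agent.H355.OE.bg := by
  rw [Pool.Agent.H355.OE.bg, Pool.Agent.H355.OE.map_rel, FreeGroup.map.of, FreeGroup.map.of]
  rfl

/-- Let `G` be the one-relator group `⟨a, t, c | b a b⁻¹ a⁻²⟩`, `b = t a t⁻¹`.  Every recursively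
enumerable set `S` of natural numbers has a primitive recursive reduction `n ↦ w_n` to equations in
one variable over `G`: `n ∈ S` if and only if `w_n(x) = 1` has a solution in `G`.  Hence the single
one-variable equation problem is undecidable for `G`, and it is not true that it is decidable for
every one-relator group. -/
theorem result :
    (∀ S : ℕ → Prop, REPred S → ∃ f : ℕ → Word 3, Primrec f ∧ ∀ n, S n ↔ Satisfiable rel (f n)) ∧
    ¬ ComputablePred (fun w : Word 3 => Satisfiable rel w) ∧
    ¬ ∀ (n : ℕ) (r : FreeGroup (Fin n)), ComputablePred (fun w : Word n => Satisfiable r w) := by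
  have h1 : ∀ S : ℕ → Prop, REPred S →
      ∃ f : ℕ → Word 3, Primrec f ∧ ∀ n, S n ↔ Satisfiable rel (f n) := by
    intro S hS
    obtain ⟨f, hf, h⟩ := Pool.Agent.H355.OE.re_eq hS
    refine ⟨fun n => (f n).map ren, primrec_ren.comp hf, fun n => ?_⟩
    rw [h n, ← rel_eq]
    constructor
    · rintro ⟨g, hg⟩
      exact ⟨g 0, by rw [value_ren, hg]⟩
    · rintro ⟨g, hg⟩
      exact ⟨fun _ => g, by rw [← value_ren, hg]⟩
  have h2 : ¬ ComputablePred (fun w : Word 3 => Satisfiable rel w) := by
    intro h
    obtain ⟨S, hS, hn⟩ := Pool.Agent.H355.OE.exists_re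
    obtain ⟨f, hf, hf2⟩ := h1 S hS
    exact hn (ComputablePred.computable_of_manyOneReducible ⟨f, hf.to_comp, hf2⟩ h)
  exact ⟨h1, h2, fun h => h2 (h 3 rel)⟩

end Pool.Agent.Results.MP_1ebeae_al.OneVariableUndecidable
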